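import Pool.Agent.H31.SX.TargetsR

/-!
# swx_modules, row RD: quadratic sums over a nilpotent ideal
-/

set_option autoImplicit false

open Finset Complex

namespace Pool.Agent.H96.SWX

open Pool.Agent.H31.SX
open Pool.Agent.H31.SW (dif)
open Pool.Agent.H29.TC (AC MC)

section gen

variable {R : Type} [CommRing R]

theorem isUnit_one_add_mem {I : Ideal R} {N : ℕ} (hN : I ^ N = ⊥) {x : R} (hx : x - 1 ∈ I) :
    IsUnit x := by
  have h1 : IsNilpotent (x - 1) := by
    refine ⟨N, ?_⟩
    have : (x - 1) ^ N ∈ I ^ N := Ideal.pow_mem_pow hx N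
    rw [hN] at this
    exact (Submodule.mem_bot R).1 this
  have h2 := h1.isUnit_one_add
  have h3 : 1 + (x - 1) = x := by ring
  rwa [h3] at h2

/-- A polynomial without constant term takes values in `I` on `I`. -/
theorem poly_sub_mem {I : Ideal R} (c : ℕ → R) (n : ℕ) {t : R} (ht : t ∈ I) :
    (∑ k ∈ range (n + 1), c k * t ^ k) - c 0 ∈ I := by
  rw [sum_range_succ']
  have : (∑ k ∈ range n, c (k + 1) * t ^ (k + 1)) + c 0 * t ^ 0 - c 0 =
      ∑ k ∈ range n, c (k + 1) * t ^ (k + 1) := by ring
  rw [this]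
  refine I.sum_mem fun k _ => I.mul_mem_left _ ?_
  rw [pow_succ]
  exact I.mul_mem_left _ ht

/-- The difference of two values of a polynomial. -/
theorem poly_sub_dvd (c : ℕ → R) (n : ℕ) (t t' : R) :
    ∃ v : R, (∑ k ∈ range n, c k * t ^ k) - ∑ k ∈ range n, c k * t' ^ k = (t - t') * v := by
  rw [← sum_sub_distrib]
  have : ∀ k ∈ range n, (t - t') ∣ c k * t ^ k - c k * t' ^ k := by
    intro k _
    rw [← mul_sub]
    exact (sub_dvd_pow_sub_pow t t' k).mul_left _
  obtain ⟨v, hv⟩ := dvd_sum this
  exact ⟨v, hv⟩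

open scoped Classical in
theorem sum_inj [Fintype R] (I : Ideal R) (φ : R → R) (hφ : ∀ t ∈ I, φ t ∈ I)
    (hi : ∀ t ∈ I, ∀ t' ∈ I, φ t = φ t' → t = t') (g : R → ℂ) :
    (∑ t : R, if t ∈ I then g (φ t) else 0) = ∑ t : R, if t ∈ I then g t else 0 := by
  rw [← sum_filter, ← sum_filter]
  have h1 : (univ.filter fun t : R => t ∈ I).image φ = univ.filter fun t : R => t ∈ I := by
    apply eq_of_subset_of_card_le
    · intro x hx
      obtain ⟨t, ht, rfl⟩ := mem_image.1 hx
      exact mem_filter.2 ⟨mem_univ _, hφ t (mem_filter.1 ht).2⟩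
    · rw [card_image_of_injOn]
      intro t ht t' ht' h
      exact hi t (mem_filter.1 ht).2 t' (mem_filter.1 ht').2 h
  conv_rhs => rw [← h1]
  rw [sum_image]
  intro t ht t' ht' h
  exact hi t (mem_filter.1 ht).2 t' (mem_filter.1 ht').2 h

end gen

theorem pf_RD (hRA : X_RA) (hRB : X_RB) : X_RD := by
  classical
  intro R _ _ θ I N hθ hN h2
  have h4 : IsUnit (4 : R) := by
    have : (4 : R) = 2 * 2 := by norm_num
    rw [this]; exact h2.mul h2
  obtain ⟨c, hc0, -, hc⟩ := hRB R I N hN 1 1 (Ring.inverse 4) (by ring)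
    (by rw [mul_one]; exact Ring.mul_inverse_cancel _ h4)
  refine ⟨?_, ?_, ?_⟩
  · intro κ hκ f hf
    set w : R := Ring.inverse (κ 0) with hw
    have hwκ : κ 0 * w = 1 := Ring.mul_inverse_cancel _ hκ
    let z : R → R := fun t => (∑ k ∈ range (N + 2), (w * κ k) * t ^ k) - 1
    have hz : ∀ t ∈ I, z t ∈ I := by
      intro t ht
      have := poly_sub_mem (I := I) (fun k => w * κ k) (N + 1) ht
      have h5 : w * κ 0 = 1 := by rw [mul_comm]; exact hwκ
      simpa only [z, h5] using this
    have hzd : ∀ t t' : R, ∃ v : R, z t - z t' = (t - t') * v := by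
      intro t t'
      obtain ⟨v, hv⟩ := poly_sub_dvd (fun k => w * κ k) (N + 2) t t'
      refine ⟨v, ?_⟩
      rw [← hv]
      simp only [z]; ring
    let M : R → R := fun t => ∑ k ∈ range (N + 6), c k * z t ^ k
    have hM1 : ∀ t ∈ I, M t - 1 ∈ I := by
      intro t ht
      have := poly_sub_mem (I := I) c (N + 5) (hz t ht)
      rwa [hc0] at this
    have hM2 : ∀ t ∈ I, M t ^ 2 = 1 + z t := fun t ht => hc (z t) (hz t ht)
    have hφ : ∀ t ∈ I, t * M t ∈ I := fun t ht => I.mul_mem_right _ ht
    have hinj : ∀ t ∈ I, ∀ t' ∈ I, t * M t = t' * M t' → t = t' := by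
      intro t ht t' ht' h
      obtain ⟨v, hv⟩ := poly_sub_dvd c (N + 6) (z t) (z t')
      obtain ⟨v', hv'⟩ := hzd t t'
      have h5 : (t - t') * (M t + t' * (v' * v)) = 0 := by
        have h6 : M t - M t' = (z t - z t') * v := hv
        have h7 : (t - t') * (M t + t' * (v' * v)) =
            t * M t - t' * M t' - t' * (M t - M t' - (t - t') * v' * v) := by ring
        rw [h7, h6, hv', h]; ring
      have h8 : IsUnit (M t + t' * (v' * v)) := by
        apply isUnit_one_add_mem hN
        have : M t + t' * (v' * v) - 1 = (M t - 1) + t' * (v' * v) := by ring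
        rw [this]
        exact I.add_mem (hM1 t ht) (I.mul_mem_right _ ht')
      have h9 := (h8.mul_left_eq_zero).1 h5
      exact sub_eq_zero.1 h9
    rw [Ga, ← sum_inj I (fun t => t * M t) hφ hinj (fun t => θ (κ 0 * t ^ 2))]
    apply sum_congr rfl
    intro t _
    by_cases ht : t ∈ I
    · rw [if_pos ht, if_pos ht, hf t ht]
      have h5 : κ 0 * (t * M t) ^ 2 = t ^ 2 * (κ 0 * M t ^ 2) := by ring
      rw [h5, hM2 t ht]
      have h6 : κ 0 * (1 + z t) = ∑ k ∈ range (N + 2), κ k * t ^ k := by
        simp only [z]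
        rw [add_sub_cancel, mul_sum]
        apply sum_congr rfl
        intro k _
        calc κ 0 * (w * κ k * t ^ k) = (κ 0 * w) * (κ k * t ^ k) := by ring
          _ = κ k * t ^ k := by rw [hwκ, one_mul]
      rw [h6]
    · rw [if_neg ht, if_neg ht]
  · intro u u' hu huu
    set w : R := Ring.inverse u with hw
    have hwu : u * w = 1 := Ring.mul_inverse_cancel _ hu
    set z : R := w * (u' - u) with hz
    have hzI : z ∈ I := by
      rw [hz]
      apply I.mul_mem_left
      have : u' - u = -(u - u') := by ring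
      rw [this]; exact I.neg_mem huu
    set m : R := ∑ k ∈ range (N + 6), c k * z ^ k with hm
    have hm1 : m - 1 ∈ I := by
      have := poly_sub_mem (I := I) c (N + 5) hzI
      rwa [hc0] at this
    have hm2 : m ^ 2 = 1 + z := hc z hzI
    have hmu : IsUnit m := isUnit_one_add_mem hN hm1
    have hφ : ∀ t ∈ I, m * t ∈ I := fun t ht => I.mul_mem_left _ ht
    have hinj : ∀ t ∈ I, ∀ t' ∈ I, m * t = m * t' → t = t' := by
      intro t _ t' _ h
      exact hmu.mul_left_cancel h
    rw [Ga, Ga, ← sum_inj I (fun t => m * t) hφ hinj (fun t => θ (u * t ^ 2))]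
    apply sum_congr rfl
    intro t _
    have h5 : u * (m * t) ^ 2 = u' * t ^ 2 := by
      have h6 : u * (m * t) ^ 2 = u * m ^ 2 * t ^ 2 := by ring
      rw [h6, hm2, hz]
      have h7 : u * (1 + w * (u' - u)) = u + (u * w) * (u' - u) := by ring
      rw [h7, hwu]; ring
    simp only [h5]
  · intro hnd u hu
    obtain ⟨-, -, hcard, hsum⟩ := hRA R θ hnd I
    have hst : ∀ x : R, θ x * (starRingEnd ℂ) (θ x) = 1 := by
      intro x
      rw [Complex.mul_conj, Complex.normSq_eq_norm_sq, hθ.norm]; simp
    have h0 : ((‖Ga θ I u‖ ^ 2 : ℝ) : ℂ) = ∑ r : R, if r ∈ I then θ (u * r ^ 2) *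
        (∑ s : R, if s ∈ I then θ ((2 * u * r) * s) else 0) else 0 := by
      rw [← Complex.normSq_eq_norm_sq, ← Complex.mul_conj, Ga, map_sum, sum_mul_sum, sum_comm]
      have h5 : ∀ s : R, (∑ t : R, (if t ∈ I then θ (u * t ^ 2) else 0) *
          (starRingEnd ℂ) (if s ∈ I then θ (u * s ^ 2) else 0)) =
          ∑ r : R, if r ∈ I then θ (u * r ^ 2) * (if s ∈ I then θ ((2 * u * r) * s) else 0)
            else 0 := by
        intro s
        by_cases hs : s ∈ I
        · have hsh : ∀ g : R → ℂ, ∑ t : R, g t = ∑ r : R, g (s + r) :=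
            fun g => (Equiv.sum_comp (Equiv.addLeft s) g).symm
          rw [hsh]
          apply sum_congr rfl
          intro r _
          by_cases hr : r ∈ I
          · rw [if_pos hr, if_pos (I.add_mem hs hr), if_pos hs, if_pos hs]
            have h6 : u * (s + r) ^ 2 = u * r ^ 2 + (2 * u * r * s + u * s ^ 2) := by ring
            rw [h6, hθ.add, hθ.add, mul_assoc, mul_assoc, hst, mul_one]
          · rw [if_neg hr, if_neg, zero_mul]
            intro h
            apply hr
            have := I.sub_mem h hs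
            rwa [add_sub_cancel_left] at this
        · simp [hs]
      rw [sum_congr rfl fun s _ => h5 s, sum_comm]
      apply sum_congr rfl
      intro r _
      by_cases hr : r ∈ I
      · simp only [if_pos hr, mul_sum]
      · simp [hr]
    have h1 : ‖Ga θ I u‖ ^ 2 ≤ ∑ r : R, if (∀ t ∈ I, r * t = 0) then (Nat.card I : ℝ) else 0 := by
      have h5 : ‖Ga θ I u‖ ^ 2 = ‖((‖Ga θ I u‖ ^ 2 : ℝ) : ℂ)‖ := by
        rw [Complex.norm_real, Real.norm_of_nonneg (by positivity)]
      rw [h5, h0]
      refine (norm_sum_le _ _).trans (sum_le_sum fun r _ => ?_)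
      by_cases hr : r ∈ I
      · rw [if_pos hr, norm_mul, hθ.norm, one_mul, hsum]
        by_cases h6 : ∀ t ∈ I, 2 * u * r * t = 0
        · rw [if_pos h6, if_pos]
          · simp
          · intro t ht
            have h7 := h6 t ht
            have h8 : 2 * u * (r * t) = 0 := by rw [← h7]; ring
            exact ((h2.mul hu).mul_right_eq_zero).1 h8
        · rw [if_neg h6, norm_zero]
          split_ifs
          · positivity
          · exact le_refl _
      · rw [if_neg hr, norm_zero]
        split_ifs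
        · positivity
        · exact le_refl _
    refine h1.trans (le_of_eq ?_)
    rw [← sum_filter, sum_const, nsmul_eq_mul, mul_comm]
    rw [← hcard]
    congr 2
    rw [Set.ncard_eq_toFinset_card']
    congr 1
    ext x
    simp

end Pool.Agent.H96.SWX
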