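import Pool.Agent.H96.SWX.RD

/-!
# swx_modules, row RF: three differences of the stationary phase sums
-/

set_option autoImplicit false

open Finset Complex

namespace Pool.Agent.H96.SWX

open Pool.Agent.H31.SX
open Pool.Agent.H31.SW (dif)
open Pool.Agent.H29.TC (AC MC)

section gen

variable {R : Type} [CommRing R] {θ : R → ℂ}

theorem ac_mul_conj (hθ : AC θ) (x : R) : θ x * (starRingEnd ℂ) (θ x) = 1 := by
  rw [Complex.mul_conj, Complex.normSq_eq_norm_sq, hθ.norm]; simp

theorem ac_sub (hθ : AC θ) (x y : R) : θ (x - y) = θ x * (starRingEnd ℂ) (θ y) := by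
  have h1 : θ x = θ (x - y) * θ y := by rw [← hθ.add, sub_add_cancel]
  rw [h1, mul_assoc, ac_mul_conj hθ, mul_one]

theorem dif_inv {W : R → ℂ} {ν : R} (h : ∀ α, W (α + ν) = W α) (β : R) :
    ∀ α, dif β W (α + ν) = dif β W α := by
  intro α
  unfold dif
  rw [add_right_comm, h, h]

theorem dif_supp {W : R → ℂ} {β α : R} (h : dif β W α ≠ 0) : W α ≠ 0 := by
  intro h0
  apply h
  unfold dif
  rw [h0, map_zero, mul_zero]

theorem dif_step (hθ : AC θ) (F : R → ℂ) (c : ℂ) (φ : R → R) (I : Ideal R) (s₀ h β : R)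
    (hh : 2 * h = 1) (hβ : β ∈ I) (hF : ∀ σ ∈ I, F (-(2 * (s₀ + σ))) = c * θ (φ σ)) :
    ∀ σ ∈ I, dif β F (-(2 * (s₀ + σ))) =
      (c * (starRingEnd ℂ) c) * θ (dl (-(h * β)) φ σ) := by
  intro σ hσ
  have h1 : -(2 * (s₀ + σ)) + β = -(2 * (s₀ + (σ + -(h * β)))) := by
    linear_combination (-β) * hh
  have h2 : σ + -(h * β) ∈ I := I.add_mem hσ (I.neg_mem (I.mul_mem_left _ hβ))
  unfold dif dl
  rw [h1, hF _ h2, hF _ hσ, ac_sub hθ, map_mul]
  ring

open scoped Classical in
/-- The square of a sum over an ideal. -/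
theorem normsq_sum [Fintype R] (hθ : AC θ) (I : Ideal R) (g : R → R) :
    ((‖∑ t : R, if t ∈ I then θ (g t) else 0‖ ^ 2 : ℝ) : ℂ) =
      ∑ r : R, if r ∈ I then (∑ s : R, if s ∈ I then θ (g (s + r) - g s) else 0) else 0 := by
  rw [← Complex.normSq_eq_norm_sq, ← Complex.mul_conj, map_sum, sum_mul_sum, sum_comm]
  have h5 : ∀ s : R, (∑ t : R, (if t ∈ I then θ (g t) else 0) *
      (starRingEnd ℂ) (if s ∈ I then θ (g s) else 0)) =
      ∑ r : R, if r ∈ I then (if s ∈ I then θ (g (s + r) - g s) else 0) else 0 := by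
    intro s
    by_cases hs : s ∈ I
    · have hsh : ∀ g : R → ℂ, ∑ t : R, g t = ∑ r : R, g (s + r) :=
        fun g => (Equiv.sum_comp (Equiv.addLeft s) g).symm
      rw [hsh]
      apply sum_congr rfl
      intro r _
      by_cases hr : r ∈ I
      · rw [if_pos hr, if_pos (I.add_mem hs hr), if_pos hs, if_pos hs, ac_sub hθ]
      · rw [if_neg hr, if_neg, zero_mul]
        intro h
        apply hr
        have := I.sub_mem h hs
        rwa [add_sub_cancel_left] at this
    · simp [hs]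
  rw [sum_congr rfl fun s _ => h5 s, sum_comm]
  apply sum_congr rfl
  intro r _
  by_cases hr : r ∈ I
  · simp only [if_pos hr]
  · simp [hr]

open scoped Classical in
/-- The kernel of a multiplication and the preimage of the annihilator. -/
theorem card_pre [Fintype R] (P : R → Prop) (b : R) :
    ((univ.filter fun δ : R => P (b * δ)).card : ℝ) ≤
      ((univ.filter fun x : R => P x).card : ℝ) *
        ((univ.filter fun δ : R => b * δ = 0).card : ℝ) := by
  have h1 : (univ.filter fun δ : R => P (b * δ)).card ≤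
      (univ.filter fun δ : R => b * δ = 0).card *
        ((univ.filter fun δ : R => P (b * δ)).image fun δ => b * δ).card := by
    apply card_le_mul_card_image
    intro y hy
    obtain ⟨a, _, rfl⟩ := mem_image.1 hy
    apply card_le_card_of_injOn (fun δ => δ - a)
    · intro δ hδ
      have h2 := (mem_filter.1 hδ).2
      refine mem_coe.2 (mem_filter.2 ⟨mem_univ _, ?_⟩)
      show b * (δ - a) = 0
      rw [mul_sub, h2, sub_self]
    · intro x _ y _ h
      exact sub_left_injective h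
  have h2 : ((univ.filter fun δ : R => P (b * δ)).image fun δ => b * δ).card ≤
      (univ.filter fun x : R => P x).card := by
    apply card_le_card
    intro y hy
    obtain ⟨a, ha, rfl⟩ := mem_image.1 hy
    exact mem_filter.2 ⟨mem_univ _, (mem_filter.1 ha).2⟩
  have h3 := h1.trans (Nat.mul_le_mul_left _ h2)
  rw [mul_comm] at h3
  exact_mod_cast h3

/-- A sum which is multiplied by a number under a shift. -/
theorem shift_sum [Fintype R] (hθ : AC θ) (D : R → ℂ) (δ ξ : R) (hD : ∀ α, D (α + δ) = D α)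
    (h0 : ∑ α : R, D α * θ (α * ξ) ≠ 0) : θ (δ * ξ) = 1 := by
  have h1 : ∑ α : R, D α * θ (α * ξ) = θ (δ * ξ) * ∑ α : R, D α * θ (α * ξ) := by
    conv_lhs => rw [← Equiv.sum_comp (Equiv.addRight δ) (fun α => D α * θ (α * ξ))]
    rw [mul_sum]
    apply sum_congr rfl
    intro α _
    show D (α + δ) * θ ((α + δ) * ξ) = _
    rw [hD, add_mul, hθ.add]
    ring
  have h2 : (θ (δ * ξ) - 1) * ∑ α : R, D α * θ (α * ξ) = 0 := by
    rw [sub_mul, one_mul, ← h1, sub_self]
  rcases mul_eq_zero.1 h2 with h3 | h3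
  · exact sub_eq_zero.1 h3
  · exact absurd h3 h0

end gen

open scoped Classical in
theorem core (hRA : X_RA) (hRC : X_RC) (R : Type) [CommRing R] [Fintype R] (θ : R → ℂ)
    (I : Ideal R) (N N' : ℕ) (hnd : ND θ) (hN : I ^ N = ⊥) (h h0 : R) (hh : 2 * h = 1)
    (W : R → ℂ) (G : ℂ) (hG : ‖G‖ ^ 2 ≤ (Fintype.card R : ℝ)) (s₀ : R) (d : ℕ → R)
    (hd : IsUnit (h0 : R)) (hd5 : 120 * d 5 - h0 ∈ I)
    (hW : ∀ σ ∈ I, W (-(2 * (s₀ + σ))) = G * θ (∑ k ∈ range (N' + 6), d k * σ ^ k))
    (hinv : ∀ α ν : R, (∀ t ∈ I, ν * t = 0) → W (α + ν) = W α)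
    (hsupp : ∀ α : R, W α ≠ 0 → ∃ σ ν : R, σ ∈ I ∧ (∀ t ∈ I, ν * t = 0) ∧
      α = -(2 * (s₀ + σ)) + ν) : RD θ I W := by
  have hθ := hnd.ac
  obtain ⟨-, -, hcard, hsum⟩ := hRA R θ hnd I
  have hhu : IsUnit h := IsUnit.of_mul_eq_one 2 (by rw [mul_comm]; exact hh)
  have h2u : IsUnit (2 : R) := IsUnit.of_mul_eq_one h hh
  -- common facts
  have main : ∀ β₁ ∈ I, ∀ β₂ ∈ I, ∀ β₃ ∈ I, ∃ (C : ℂ) (φ : R → R),
      ‖C‖ = ‖G‖ ^ 8 ∧
      (∀ σ ∈ I, dif β₃ (dif β₂ (dif β₁ W)) (-(2 * (s₀ + σ))) = C * θ (φ σ)) ∧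
      (∀ δ ∈ I, ∃ w : R → R, (∀ τ ∈ I, φ (τ + δ) - φ τ =
        -(h ^ 3 * (β₁ * β₂ * β₃)) * δ * w τ) ∧
        ∀ τ ∈ I, ∀ s ∈ I, ∃ u : R, w (τ + s) - w τ = s * u ∧ IsUnit u) ∧
      (∀ ν : R, (∀ t ∈ I, ν * t = 0) → ∀ α,
        dif β₃ (dif β₂ (dif β₁ W)) (α + ν) = dif β₃ (dif β₂ (dif β₁ W)) α) ∧
      (∀ α, dif β₃ (dif β₂ (dif β₁ W)) α ≠ 0 → ∃ σ ν : R, σ ∈ I ∧ (∀ t ∈ I, ν * t = 0) ∧
        α = -(2 * (s₀ + σ)) + ν) := by
    intro β₁ hβ₁ β₂ hβ₂ β₃ hβ₃
    have hb : ∀ β ∈ I, -(h * β) ∈ I := fun β hβ => I.neg_mem (I.mul_mem_left _ hβ)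
    have e1 := dif_step hθ W G _ I s₀ h β₁ hh hβ₁ hW
    have e2 := dif_step hθ _ _ _ I s₀ h β₂ hh hβ₂ e1
    have e3 := dif_step hθ _ _ _ I s₀ h β₃ hh hβ₃ e2
    refine ⟨_, _, ?_, e3, ?_, ?_, ?_⟩
    · simp only [norm_mul, RCLike.norm_conj]
      ring
    · intro δ hδ
      obtain ⟨w, hw1, hw2⟩ := hRC R I N' d _ (hb β₁ hβ₁) _ (hb β₂ hβ₂) _ (hb β₃ hβ₃) δ hδ
      refine ⟨w, ?_, ?_⟩
      · intro τ hτ
        have := hw1 τ hτ
        rw [dl] at this
        rw [this]; ring
      · intro τ hτ s hs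
        obtain ⟨u, hu1, hu2⟩ := hw2 τ hτ s hs
        refine ⟨u, hu1, ?_⟩
        have h3 : u - h0 ∈ I := by
          have : u - h0 = (u - 120 * d 5) + (120 * d 5 - h0) := by ring
          rw [this]; exact I.add_mem hu2 hd5
        have h4 : IsNilpotent (u - h0) := by
          refine ⟨N, ?_⟩
          have : (u - h0) ^ N ∈ I ^ N := Ideal.pow_mem_pow h3 N
          rw [hN] at this
          exact (Submodule.mem_bot R).1 this
        have h5 := Pool.Agent.H29.TC.unit_add_nil hd h4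
        have h6 : h0 + (u - h0) = u := by ring
        rwa [h6] at h5
    · intro ν hν
      exact dif_inv (dif_inv (dif_inv (fun α => hinv α ν hν) β₁) β₂) β₃
    · intro α hα
      exact hsupp α (dif_supp (dif_supp (dif_supp hα)))
  refine ⟨?_, hinv, ?_, ?_⟩
  · intro α
    by_cases hα : W α = 0
    · rw [hα, norm_zero]
      simp
    · obtain ⟨σ, ν, hσ, hν, rfl⟩ := hsupp α hα
      rw [hinv _ ν hν, hW σ hσ, norm_mul, hθ.norm, mul_one]
      exact hG
  · intro β₁ hβ₁ β₂ hβ₂ β₃ hβ₃ ξ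
    obtain ⟨C, φ, hC, hD, hw, hDinv, hDs⟩ := main β₁ hβ₁ β₂ hβ₂ β₃ hβ₃
    set D := dif β₃ (dif β₂ (dif β₁ W)) with hDdef
    by_cases hE : ∑ α : R, D α * θ (α * ξ) = 0
    · rw [hE, norm_zero, zero_pow two_ne_zero]
      positivity
    have hνξ : ∀ ν : R, (∀ t ∈ I, ν * t = 0) → θ (ν * ξ) = 1 := fun ν hν =>
      shift_sum hθ D ν ξ (hDinv ν hν) hE
    obtain ⟨A, hA⟩ : ∃ A : R → Prop, ∀ x, A x ↔ ∀ t ∈ I, x * t = 0 := ⟨_, fun _ => Iff.rfl⟩
    have hAadd : ∀ x y, A x → A y → A (x + y) := by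
      intro x y hx hy
      rw [hA] at hx hy ⊢
      intro t ht
      rw [add_mul, hx t ht, hy t ht, add_zero]
    have hAneg : ∀ x, A x → A (-x) := by
      intro x hx
      rw [hA] at hx ⊢
      intro t ht
      rw [neg_mul, hx t ht, neg_zero]
    have hA2 : ∀ x, A (2 * x) ↔ A x := by
      intro x
      rw [hA, hA]
      constructor
      · intro hx t ht
        have := hx t ht
        rw [mul_assoc] at this
        exact (h2u.mul_right_eq_zero).1 this
      · intro hx t ht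
        rw [mul_assoc, hx t ht, mul_zero]
    set nA : ℕ := (univ.filter fun x : R => A x).card with hnA
    set nIA : ℕ := (univ.filter fun x : R => x ∈ I ∧ A x).card with hnIA
    have hnIA1 : (1 : ℝ) ≤ nIA := by
      have : 1 ≤ nIA := by
        rw [hnIA, Nat.one_le_iff_ne_zero]
        apply card_ne_zero_of_mem (a := 0)
        exact mem_filter.2 ⟨mem_univ _, I.zero_mem, (hA 0).2 fun t _ => zero_mul t⟩
      exact_mod_cast this
    set F : R → ℂ := fun α => D α * θ (α * ξ) with hF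
    have hFinv : ∀ ν, A ν → ∀ α, F (α + ν) = F α := by
      intro ν hν α
      simp only [hF]
      rw [hDinv ν ((hA ν).1 hν), add_mul, hθ.add, hνξ ν ((hA ν).1 hν), mul_one]
    -- the two ways of counting
    have hcount : (nIA : ℂ) * ∑ α : R, F α =
        (nA : ℂ) * ∑ σ : R, if σ ∈ I then F (-(2 * (s₀ + σ))) else 0 := by
      have e1 : ∀ α : R, (∑ σ : R, if σ ∈ I then (if A (α + 2 * (s₀ + σ)) then F α else 0)
          else 0) = (nIA : ℂ) * F α := by
        intro α
        by_cases hα : F α = 0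
        · rw [hα, mul_zero]
          apply sum_eq_zero
          intro σ _
          split_ifs <;> rfl
        · have hDα : D α ≠ 0 := by
            intro h3
            apply hα
            simp only [hF]
            rw [h3, zero_mul]
          obtain ⟨σ₀, ν₀, hσ₀, hν₀, rfl⟩ := hDs α hDα
          have hsh : ∀ g : R → ℂ, ∑ σ : R, g σ = ∑ σ : R, g (σ₀ + σ) :=
            fun g => (Equiv.sum_comp (Equiv.addLeft σ₀) g).symm
          rw [hsh]
          have e2 : ∀ σ : R, (if σ₀ + σ ∈ I then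
              (if A (-(2 * (s₀ + σ₀)) + ν₀ + 2 * (s₀ + (σ₀ + σ))) then
                F (-(2 * (s₀ + σ₀)) + ν₀) else 0) else 0) =
              if σ ∈ I ∧ A σ then F (-(2 * (s₀ + σ₀)) + ν₀) else 0 := by
            intro σ
            have e3 : -(2 * (s₀ + σ₀)) + ν₀ + 2 * (s₀ + (σ₀ + σ)) = 2 * σ + ν₀ := by ring
            have e4 : A (2 * σ + ν₀) ↔ A σ := by
              rw [← hA2 σ]
              constructor
              · intro h3
                have := hAadd _ _ h3 (hAneg _ ((hA ν₀).2 hν₀))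
                rwa [add_neg_cancel_right] at this
              · intro h3
                exact hAadd _ _ h3 ((hA ν₀).2 hν₀)
            have e5 : σ₀ + σ ∈ I ↔ σ ∈ I := I.add_mem_iff_right hσ₀
            rw [e3]
            by_cases h3 : σ ∈ I
            · rw [if_pos (e5.2 h3)]
              by_cases h4 : A σ
              · rw [if_pos (e4.2 h4), if_pos ⟨h3, h4⟩]
              · rw [if_neg (fun h5 => h4 (e4.1 h5)), if_neg (fun h5 => h4 h5.2)]
            · rw [if_neg (fun h5 => h3 (e5.1 h5)), if_neg (fun h5 => h3 h5.1)]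
          rw [sum_congr rfl fun σ _ => e2 σ, ← sum_filter, sum_const, nsmul_eq_mul]
      have e6 : ∀ σ ∈ I, (∑ α : R, if A (α + 2 * (s₀ + σ)) then F α else 0) =
          (nA : ℂ) * F (-(2 * (s₀ + σ))) := by
        intro σ _
        have hsh : ∀ g : R → ℂ, ∑ α : R, g α = ∑ α : R, g (-(2 * (s₀ + σ)) + α) :=
          fun g => (Equiv.sum_comp (Equiv.addLeft (-(2 * (s₀ + σ)))) g).symm
        rw [hsh]
        have e7 : ∀ α : R, (if A (-(2 * (s₀ + σ)) + α + 2 * (s₀ + σ)) then
            F (-(2 * (s₀ + σ)) + α) else 0) = if A α then F (-(2 * (s₀ + σ))) else 0 := by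
          intro α
          have e8 : -(2 * (s₀ + σ)) + α + 2 * (s₀ + σ) = α := by ring
          rw [e8]
          by_cases h3 : A α
          · rw [if_pos h3, if_pos h3, hFinv α h3]
          · rw [if_neg h3, if_neg h3]
        rw [sum_congr rfl fun α _ => e7 α, ← sum_filter, sum_const, nsmul_eq_mul]
      rw [mul_sum, mul_sum, ← sum_congr rfl fun α _ => e1 α, sum_comm]
      apply sum_congr rfl
      intro σ _
      by_cases hσ : σ ∈ I
      · simp only [if_pos hσ]
        exact e6 σ hσ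
      · simp [hσ]
    -- the sum over `I`
    set S : ℂ := ∑ σ : R, if σ ∈ I then θ (φ σ - 2 * σ * ξ) else 0 with hS
    have hS' : ‖∑ σ : R, if σ ∈ I then F (-(2 * (s₀ + σ))) else 0‖ = ‖G‖ ^ 8 * ‖S‖ := by
      have e1 : (∑ σ : R, if σ ∈ I then F (-(2 * (s₀ + σ))) else 0) =
          (C * θ (-(2 * s₀ * ξ))) * S := by
        rw [hS, mul_sum]
        apply sum_congr rfl
        intro σ _
        by_cases hσ : σ ∈ I
        · rw [if_pos hσ, if_pos hσ]
          simp only [hF]
          rw [hD σ hσ]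
          have e2 : -(2 * (s₀ + σ)) * ξ = -(2 * s₀ * ξ) + -(2 * σ * ξ) := by ring
          have e3 : φ σ - 2 * σ * ξ = φ σ + -(2 * σ * ξ) := by ring
          rw [e2, e3, hθ.add, hθ.add]
          ring
        · rw [if_neg hσ, if_neg hσ, mul_zero]
      rw [e1, norm_mul, norm_mul, hC, hθ.norm, mul_one]
    set b : R := -(h ^ 3 * (β₁ * β₂ * β₃)) with hb
    have hSb : ‖S‖ ^ 2 ≤ (Nat.card I : ℝ) *
        ((univ.filter fun δ : R => A (b * δ)).card : ℝ) := by
      have e1 := normsq_sum hθ I (fun σ => φ σ - 2 * σ * ξ)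
      have e2 : ‖S‖ ^ 2 ≤ ∑ δ : R, if A (b * δ) then (Nat.card I : ℝ) else 0 := by
        have e3 : ‖S‖ ^ 2 = ‖((‖S‖ ^ 2 : ℝ) : ℂ)‖ := by
          rw [Complex.norm_real, Real.norm_of_nonneg (by positivity)]
        rw [e3, hS, e1]
        refine (norm_sum_le _ _).trans (sum_le_sum fun δ _ => ?_)
        by_cases hδ : δ ∈ I
        · rw [if_pos hδ]
          obtain ⟨w, hw1, hw2⟩ := hw δ hδ
          have e4 : (∑ s : R, if s ∈ I then θ (φ (s + δ) - 2 * (s + δ) * ξ -
              (φ s - 2 * s * ξ)) else 0) = θ (b * δ * w 0 - 2 * δ * ξ) *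
              ∑ s : R, if s ∈ I then θ (b * δ * (w s - w 0)) else 0 := by
            rw [mul_sum]
            apply sum_congr rfl
            intro s _
            by_cases hs : s ∈ I
            · rw [if_pos hs, if_pos hs, ← hθ.add]
              apply congrArg θ
              linear_combination hw1 s hs
            · rw [if_neg hs, if_neg hs, mul_zero]
          have hwz : ∀ s ∈ I, ∃ u : R, w s - w 0 = s * u ∧ IsUnit u := by
            intro s hs
            have := hw2 0 I.zero_mem s hs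
            rwa [zero_add] at this
          have e5 := sum_inj I (fun s => w s - w 0) (by
              intro s hs
              obtain ⟨u, hu, -⟩ := hwz s hs
              show w s - w 0 ∈ I
              rw [hu]; exact I.mul_mem_right _ hs) (by
              intro s hs s' hs' h3
              have h3' : w s - w 0 = w s' - w 0 := h3
              obtain ⟨u, hu, huu⟩ := hw2 s' hs' (s - s') (I.sub_mem hs hs')
              rw [add_sub_cancel] at hu
              have h4 : (s - s') * u = 0 := by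
                rw [← hu]; linear_combination h3'
              exact sub_eq_zero.1 ((huu.mul_left_eq_zero).1 h4))
              (fun t => θ (b * δ * t))
          rw [e4, e5, norm_mul, hθ.norm, one_mul, hsum]
          by_cases h6 : A (b * δ)
          · rw [if_pos h6, if_pos ((hA _).1 h6)]
            simp
          · rw [if_neg h6, if_neg (fun h7 => h6 ((hA _).2 h7)), norm_zero]
        · rw [if_neg hδ, norm_zero]
          split_ifs
          · positivity
          · exact le_refl _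
      refine e2.trans (le_of_eq ?_)
      rw [← sum_filter, sum_const, nsmul_eq_mul, mul_comm]
    have hpre := card_pre A b
    rw [← hnA] at hpre
    -- the annihilators
    have hann : ((univ.filter fun δ : R => b * δ = 0).card : ℝ) =
        ({δ : R | β₁ * β₂ * β₃ * δ = 0}.ncard : ℝ) := by
      rw [Set.ncard_eq_toFinset_card']
      congr 2
      ext δ
      simp only [mem_filter, mem_univ, true_and, Set.mem_toFinset, Set.mem_ofPred_eq]
      rw [hb]
      constructor
      · intro h3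
        have h4 : h ^ 3 * (β₁ * β₂ * β₃ * δ) = 0 := by linear_combination (-1 : R) * h3
        exact ((hhu.pow 3).mul_right_eq_zero).1 h4
      · intro h3
        linear_combination (-(h ^ 3)) * h3
    have hAcard : ({y : R | ∀ t ∈ I, y * t = 0}.ncard : ℝ) = nA := by
      rw [Set.ncard_eq_toFinset_card', hnA]
      congr 2
      ext δ
      simp [hA]
    have hquot : (Nat.card (R ⧸ I) : ℝ) = nA := by
      have e1 : Nat.card R = Nat.card (R ⧸ I) * Nat.card I := by
        rw [mul_comm]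
        exact Submodule.card_eq_card_quotient_mul_card (R := R) I
      have e2 : (Nat.card I : ℝ) * nA = Nat.card R := by
        rw [← hAcard, hcard, Nat.card_eq_fintype_card]
      have e3 : (0 : ℝ) < Nat.card I := by
        exact_mod_cast Nat.card_pos
      have e4 : (Nat.card R : ℝ) = Nat.card (R ⧸ I) * Nat.card I := by
        exact_mod_cast e1
      have e5 : (Nat.card I : ℝ) * nA = Nat.card I * (Nat.card (R ⧸ I) : ℝ) := by
        rw [e2, e4, mul_comm]
      exact (mul_left_cancel₀ e3.ne' e5).symm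
    have hnA1 : (1 : ℝ) ≤ nA := by
      have : 1 ≤ nA := by
        rw [hnA, Nat.one_le_iff_ne_zero]
        apply card_ne_zero_of_mem (a := 0)
        exact mem_filter.2 ⟨mem_univ _, (hA 0).2 fun t _ => zero_mul t⟩
      exact_mod_cast this
    -- conclusion
    have hEle : ‖∑ α : R, F α‖ ≤ nA * (‖G‖ ^ 8 * ‖S‖) := by
      have e1 := congrArg norm hcount
      rw [norm_mul, norm_mul, hS', Complex.norm_natCast, Complex.norm_natCast] at e1
      rw [← e1]
      exact le_mul_of_one_le_left (norm_nonneg _) hnIA1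
    have hG8 : (‖G‖ ^ 8) ^ 2 ≤ (Fintype.card R : ℝ) ^ 8 := by
      calc (‖G‖ ^ 8) ^ 2 = (‖G‖ ^ 2) ^ 8 := by ring
        _ ≤ (Fintype.card R : ℝ) ^ 8 := pow_le_pow_left₀ (by positivity) hG 8
    rw [hquot, ← hann]
    set nb : ℝ := ((univ.filter fun δ : R => b * δ = 0).card : ℝ) with hnb
    have hnb0 : 0 ≤ nb := by rw [hnb]; positivity
    have hIA : (Nat.card I : ℝ) * nA = Fintype.card R := by rw [← hAcard, hcard]
    have hR0 : (0 : ℝ) ≤ Fintype.card R := Nat.cast_nonneg _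
    calc ‖∑ α : R, F α‖ ^ 2 ≤ (nA * (‖G‖ ^ 8 * ‖S‖)) ^ 2 :=
          pow_le_pow_left₀ (norm_nonneg _) hEle 2
      _ = (nA : ℝ) ^ 2 * ((‖G‖ ^ 8) ^ 2 * ‖S‖ ^ 2) := by ring
      _ ≤ (nA : ℝ) ^ 2 * ((Fintype.card R : ℝ) ^ 8 * ((Nat.card I : ℝ) * (nA * nb))) := by
          apply mul_le_mul_of_nonneg_left _ (by positivity)
          apply mul_le_mul hG8 _ (by positivity) (by positivity)
          exact hSb.trans (mul_le_mul_of_nonneg_left hpre (by positivity))
      _ = (Fintype.card R : ℝ) ^ 9 * (nA : ℝ) ^ 2 * nb := by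
          rw [← hIA]; ring
      _ ≤ (Fintype.card R : ℝ) ^ 9 * (nA : ℝ) ^ 3 * nb := by
          apply mul_le_mul_of_nonneg_right _ hnb0
          apply mul_le_mul_of_nonneg_left _ (by positivity)
          exact pow_le_pow_right₀ hnA1 (by norm_num)
  · intro β₁ hβ₁ β₂ hβ₂ β₃ hβ₃ ξ hE δ hδ hδ0
    obtain ⟨C, φ, hC, hD, hw, hDinv, hDs⟩ := main β₁ hβ₁ β₂ hβ₂ β₃ hβ₃
    set D := dif β₃ (dif β₂ (dif β₁ W)) with hDdef
    have key : ∀ α σ ν : R, σ ∈ I → (∀ t ∈ I, ν * t = 0) → α = -(2 * (s₀ + σ)) + ν →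
        D (α + δ) = D α := by
      intro α σ ν hσ hν hα
      have hb : -(h * δ) ∈ I := I.neg_mem (I.mul_mem_left _ hδ)
      have e1 : α + δ = -(2 * (s₀ + (σ + -(h * δ)))) + ν := by
        rw [hα]; linear_combination (-δ) * hh
      rw [e1, hDinv ν hν, hD _ (I.add_mem hσ hb), hα, hDinv ν hν, hD σ hσ]
      obtain ⟨w, hw1, -⟩ := hw _ hb
      have e2 : φ (σ + -(h * δ)) = φ σ := by
        have e3 := hw1 σ hσ
        have e4 : -(h ^ 3 * (β₁ * β₂ * β₃)) * -(h * δ) * w σ =
            h ^ 4 * w σ * (β₁ * β₂ * β₃ * δ) := by ring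
        rw [e4, hδ0, mul_zero] at e3
        exact sub_eq_zero.1 e3
      rw [e2]
    apply shift_sum hθ D δ ξ _ hE
    intro α
    by_cases hα : D α = 0
    · by_contra hne
      have h3 : D (α + δ) ≠ 0 := by
        intro h4
        apply hne
        rw [h4, hα]
      obtain ⟨σ, ν, hσ, hν, h4⟩ := hDs _ h3
      apply hne
      apply key α (σ + h * δ) ν (I.add_mem hσ (I.mul_mem_left _ hδ)) hν
      linear_combination h4 + δ * hh
    · obtain ⟨σ, ν, hσ, hν, h4⟩ := hDs _ hα
      exact key α σ ν hσ hν h4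

theorem pf_RF (hRA : X_RA) (hRB : X_RB) (hRC : X_RC) (hRD : X_RD) (hRE : X_RE) : X_RF := by
  classical
  intro R _ _ θ I N hnd hN h210 i a X₀ hi ha ha4 hX₀
  have hθ := hnd.ac
  -- units
  have hfac : ∀ x y : R, IsUnit (x * y) → IsUnit x := fun x y hxy => isUnit_of_mul_isUnit_left hxy
  have h2 : IsUnit (2 : R) := hfac 2 105 (by norm_num; exact h210)
  have h3 : IsUnit (3 : R) := hfac 3 70 (by norm_num; exact h210)
  have h5 : IsUnit (5 : R) := hfac 5 42 (by norm_num; exact h210)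
  have h7 : IsUnit (7 : R) := hfac 7 30 (by norm_num; exact h210)
  set Y₀ : R := Ring.inverse X₀ with hY₀
  have hXY : X₀ * Y₀ = 1 := Ring.mul_inverse_cancel _ hX₀
  have hYu : IsUnit Y₀ := IsUnit.of_mul_eq_one X₀ (by rw [mul_comm]; exact hXY)
  set s₀ : R := Y₀ ^ 2 with hs₀
  have h4s : IsUnit (4 * s₀) := by
    have : (4 : R) * s₀ = (2 * Y₀) ^ 2 := by rw [hs₀]; ring
    rw [this]; exact (h2.mul hYu).pow 2
  set g : R := Ring.inverse (4 * s₀) with hg
  have hg1 : 4 * s₀ * g = 1 := Ring.mul_inverse_cancel _ h4s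
  have hgu : IsUnit g := IsUnit.of_mul_eq_one (4 * s₀) (by rw [mul_comm]; exact hg1)
  obtain ⟨c, hc0, hc5, hc⟩ := hRB R I N hN s₀ Y₀ g rfl hg1
  obtain ⟨hE1, hE2, hE3⟩ := hRE R θ I N hnd hN h2 i a X₀ Y₀ hi ha ha4 hXY
  obtain ⟨-, -, hD3⟩ := hRD R θ I N hθ hN h2
  have h2Y : IsUnit (2 * Y₀ ^ 3) := h2.mul (hYu.pow 3)
  -- the root
  let q : R → R := fun σ => ∑ k ∈ range (N + 6), c k * σ ^ k
  have hq : ∀ σ ∈ I, q σ ^ 2 = s₀ + σ := hc
  have hqI : ∀ σ ∈ I, q σ - Y₀ ∈ I := by
    intro σ hσ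
    have := poly_sub_mem (I := I) c (N + 5) hσ
    rwa [hc0] at this
  -- the coefficients
  let ct : ℕ → R := fun k => if k < N + 6 then c k else 0
  let cs : ℕ → R := fun k => if k = 0 then 0 else ct (k - 1)
  let d : ℕ → R := fun k => 4 * ct k + 2 * i * a ^ 2 * (s₀ * ct k + cs k) -
    2 * X₀ * (if k = 0 then s₀ else if k = 1 then 1 else 0)
  have hct : ∀ σ : R, ∑ k ∈ range (N + 7), ct k * σ ^ k = q σ := by
    intro σ
    rw [sum_range_succ]
    have e1 : ct (N + 6) = 0 := if_neg (lt_irrefl _)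
    rw [e1, zero_mul, add_zero]
    apply sum_congr rfl
    intro k hk
    have : ct k = c k := if_pos (mem_range.1 hk)
    rw [this]
  have hcs : ∀ σ : R, ∑ k ∈ range (N + 7), cs k * σ ^ k = σ * q σ := by
    intro σ
    rw [sum_range_succ']
    have e1 : cs 0 = 0 := if_pos rfl
    rw [e1, zero_mul, add_zero, mul_sum]
    apply sum_congr rfl
    intro k hk
    have e2 : cs (k + 1) = ct k := by
      simp only [cs]
      rw [if_neg (Nat.succ_ne_zero k), Nat.add_sub_cancel]
    have e3 : ct k = c k := if_pos (mem_range.1 hk)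
    rw [e2, e3, pow_succ]; ring
  have hlin : ∀ σ : R, ∑ k ∈ range (N + 7),
      (if k = 0 then s₀ else if k = 1 then 1 else 0) * σ ^ k = s₀ + σ := by
    intro σ
    rw [sum_range_succ', sum_range_succ']
    have e1 : ∀ k ∈ range (N + 5), (if k + 1 + 1 = 0 then s₀ else
        if k + 1 + 1 = 1 then (1 : R) else 0) * σ ^ (k + 1 + 1) = 0 := by
      intro k _
      rw [if_neg (by omega), if_neg (by omega), zero_mul]
    rw [sum_eq_zero e1]
    simp only [if_true, one_ne_zero, if_false, pow_one, pow_zero, mul_one, one_mul,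
      zero_add]
    ring
  have hpoly : ∀ σ : R, ∑ k ∈ range (N + 1 + 6), d k * σ ^ k =
      4 * q σ + 2 * i * a ^ 2 * ((s₀ + σ) * q σ) - 2 * X₀ * (s₀ + σ) := by
    intro σ
    have e1 : N + 1 + 6 = N + 7 := by omega
    rw [e1]
    have e2 : ∀ k ∈ range (N + 7), d k * σ ^ k = 4 * (ct k * σ ^ k) +
        2 * i * a ^ 2 * (s₀ * (ct k * σ ^ k) + cs k * σ ^ k) -
        2 * X₀ * ((if k = 0 then s₀ else if k = 1 then 1 else 0) * σ ^ k) := by
      intro k _
      simp only [d]; ring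
    rw [sum_congr rfl e2, sum_sub_distrib, sum_add_distrib, ← mul_sum, ← mul_sum, ← mul_sum,
      sum_add_distrib, ← mul_sum, hct, hcs, hlin]
    ring
  -- the fifth coefficient
  set h0 : R := 2 ^ 7 * (3 * (5 * (7 * (Y₀ * g ^ 5)))) with hh0
  have hh0u : IsUnit h0 :=
    (h2.pow 7).mul (h3.mul (h5.mul (h7.mul (hYu.mul (hgu.pow 5)))))
  have hd5 : 120 * d 5 - h0 ∈ I := by
    have e1 : ct 5 = 28 * Y₀ * g ^ 5 := by
      have : ct 5 = c 5 := if_pos (by omega)
      rw [this, hc5]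
    have e2 : 120 * d 5 - h0 = 120 * (2 * i * a * (s₀ * ct 5 + cs 5)) * a := by
      simp only [d]
      rw [if_neg (by norm_num), if_neg (by norm_num), e1, hh0]
      ring
    rw [e2]
    exact I.mul_mem_left _ ha
  apply core hRA hRC R θ I N (N + 1) hnd hN (Ring.inverse 2) h0
    (Ring.mul_inverse_cancel _ h2) _ (Ga θ I (2 * Y₀ ^ 3)) (hD3 hnd _ h2Y) s₀ d hh0u hd5 _ hE2
  · intro α hα
    obtain ⟨r, ν, hr, hν, hα'⟩ := hE3 α hα
    refine ⟨r ^ 2 - s₀, ν, ?_, hν, ?_⟩
    · have : r ^ 2 - s₀ = (r - Y₀) * (r + Y₀) := by rw [hs₀]; ring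
      rw [this]
      exact I.mul_mem_right _ hr
    · rw [hα']; ring
  · intro σ hσ
    have e1 := hE1 (q σ) (hqI σ hσ)
    rw [hq σ hσ] at e1
    rw [e1, mul_comm, hpoly σ]
    have e2 : 4 * q σ + 2 * i * a ^ 2 * q σ ^ 3 - 2 * (s₀ + σ) * X₀ =
        4 * q σ + 2 * i * a ^ 2 * ((s₀ + σ) * q σ) - 2 * X₀ * (s₀ + σ) := by
      have e3 : q σ ^ 3 = (s₀ + σ) * q σ := by rw [pow_succ, hq σ hσ]
      rw [e3]; ring
    rw [e2]

end Pool.Agent.H96.SWX
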